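import Pool.Agent.helper51.PC.Spec

set_option autoImplicit false

/-!
# Row PIN: an element with a power `p` in the small field and of degree less than `p`
-/

namespace Pool.Agent.PC

open Polynomial

universe u

theorem PIN : PIN_stmt.{u} := by
  intro κ₀ κ _ _ _ p hp _ τ hy hP
  obtain ⟨y, hy⟩ := hy
  obtain ⟨P, hP0, hPd, hPτ⟩ := hP
  by_contra hcon
  have hirr : Irreducible (X ^ p - C y : κ₀[X]) := by
    apply X_pow_sub_C_irreducible_of_prime hp.out
    intro b hb
    apply hcon
    refine ⟨b, ?_⟩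
    apply frobenius_inj κ p
    simp only [frobenius_def]
    rw [← map_pow, hb, hy]
  have hmonic : (X ^ p - C y : κ₀[X]).Monic := monic_X_pow_sub_C y hp.out.ne_zero
  have hroot : aeval τ (X ^ p - C y : κ₀[X]) = 0 := by
    rw [map_sub, map_pow, aeval_X, aeval_C, hy, sub_self]
  have hmin : (X ^ p - C y : κ₀[X]) = minpoly κ₀ τ :=
    minpoly.eq_of_irreducible_of_monic hirr hroot hmonic
  have hle := natDegree_le_natDegree (minpoly.degree_le_of_ne_zero κ₀ τ hP0 hPτ)
  rw [← hmin, natDegree_X_pow_sub_C] at hle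
  omega

end Pool.Agent.PC
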