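import Pool.Agent.helper51.PC.Spec

set_option autoImplicit false

/-!
# Row SID: the principal prime ideal generated by the first variable
-/

namespace Pool.Agent.PC

open MvPolynomial

universe u

theorem SID_sg {k : Type u} [Field k] {n d : ℕ} (hn : 0 < n) :
    sg k n d (X ⟨0, hn⟩) = X ⟨0, hn⟩ := by
  unfold sg
  rw [aeval_X, dif_neg (by simp), add_zero]

theorem SID_mem {k : Type u} [Field k] {n d : ℕ} (f : AA k n) :
    f ∈ RR k n d ↔ sg k n d f = f := by
  rw [RR, AlgHom.mem_equalizer]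
  rfl

theorem SID : SID_stmt.{u} := by
  intro k _ n d hn hNoeth
  have hxR : (X ⟨0, hn⟩ : AA k n) ∈ RR k n d := (SID_mem _).2 (SID_sg hn)
  set x : RR k n d := ⟨X ⟨0, hn⟩, hxR⟩ with hx
  have hpr : Prime (X ⟨0, hn⟩ : AA k n) := MvPolynomial.X_prime
  have hdiv : ∀ r : RR k n d, x ∣ r ↔ (X ⟨0, hn⟩ : AA k n) ∣ r := by
    intro r
    constructor
    · rintro ⟨c, rfl⟩
      exact ⟨(c : AA k n), rfl⟩
    · rintro ⟨f, hf⟩
      have h1 : sg k n d (r : AA k n) = (r : AA k n) := (SID_mem _).1 r.2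
      rw [hf, map_mul, SID_sg hn] at h1
      have h2 : sg k n d f = f := mul_left_cancel₀ hpr.ne_zero h1
      have h3 : f ∈ RR k n d := (SID_mem f).2 h2
      exact ⟨⟨f, h3⟩, Subtype.ext hf⟩
  have hx0 : x ≠ 0 := by
    intro h
    exact hpr.ne_zero (congrArg Subtype.val h)
  have hxP : Prime x := by
    refine ⟨hx0, ?_, ?_⟩
    · intro hu
      have h1 : x ∣ 1 := hu.dvd
      rw [hdiv] at h1
      exact hpr.not_isUnit (isUnit_of_dvd_one h1)
    · intro a b hab
      rw [hdiv] at hab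
      rcases hpr.dvd_or_dvd (show (X ⟨0, hn⟩ : AA k n) ∣ (a : AA k n) * (b : AA k n) from hab)
        with h | h
      · exact Or.inl ((hdiv a).2 h)
      · exact Or.inr ((hdiv b).2 h)
  have hspan : (Ideal.span {x} : Ideal (RR k n d)).IsPrime :=
    (Ideal.span_singleton_prime hx0).2 hxP
  refine ⟨x, rfl, ?_, hspan, ?_, ?_⟩
  · intro r
    rw [Ideal.mem_span_singleton, hdiv]
  · apply le_antisymm
    · apply Ideal.height_le_one_of_isPrincipal_of_mem_minimalPrimes (Ideal.span {x})
      rw [Ideal.minimalPrimes_eq_subsingleton_self]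
      exact Set.mem_singleton _
    · exact Ideal.one_le_height_span_singleton_of_mem_nonZeroDivisors
        (mem_nonZeroDivisors_of_ne_zero hx0)
  · intro P hP h1 hxP'
    exact Ideal.eq_span_singleton_of_height_eq_one h1 hxP' hxP

end Pool.Agent.PC
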